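import Pool.Agent.Y440.A.Word

/-!
# Binary digits, exclusive or, and the linear tables
-/

set_option autoImplicit false
set_option maxRecDepth 100000

namespace Pool.Agent.Y872.Q440

open Pool.Agent.Y440.A

/-- number with five binary digits -/
def n5 (b0 b1 b2 b3 b4 : ℕ) : ℕ := b0 + 2 * b1 + 4 * b2 + 8 * b3 + 16 * b4

/-- number with the parities of the arguments as digits -/
def m5 (b0 b1 b2 b3 b4 : ℕ) : ℕ := n5 (b0 % 2) (b1 % 2) (b2 % 2) (b3 % 2) (b4 % 2)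

/-- number with four digits to the base 32 -/
def c4 (A B C D : ℕ) : ℕ := A + 32 * (B + 32 * (C + 32 * D))

/-- number with three digits to the base 32 -/
def c3 (A B C : ℕ) : ℕ := A + 32 * (B + 32 * C)

theorem n5_lt {b0 b1 b2 b3 b4 : ℕ} (h0 : b0 < 2) (h1 : b1 < 2) (h2 : b2 < 2) (h3 : b3 < 2)
    (h4 : b4 < 2) : n5 b0 b1 b2 b3 b4 < 32 := by
  unfold n5
  omega

theorem m5_lt (b0 b1 b2 b3 b4 : ℕ) : m5 b0 b1 b2 b3 b4 < 32 :=
  n5_lt (Nat.mod_lt _ (by norm_num)) (Nat.mod_lt _ (by norm_num)) (Nat.mod_lt _ (by norm_num))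
    (Nat.mod_lt _ (by norm_num)) (Nat.mod_lt _ (by norm_num))

theorem m5_eq {a0 a1 a2 a3 a4 b0 b1 b2 b3 b4 : ℕ} (h0 : a0 % 2 = b0) (h1 : a1 % 2 = b1)
    (h2 : a2 % 2 = b2) (h3 : a3 % 2 = b3) (h4 : a4 % 2 = b4) :
    m5 a0 a1 a2 a3 a4 = n5 b0 b1 b2 b3 b4 := by
  unfold m5
  rw [h0, h1, h2, h3, h4]

theorem n5_m5 {b0 b1 b2 b3 b4 : ℕ} (h0 : b0 < 2) (h1 : b1 < 2) (h2 : b2 < 2) (h3 : b3 < 2)
    (h4 : b4 < 2) : n5 b0 b1 b2 b3 b4 = m5 b0 b1 b2 b3 b4 :=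
  (m5_eq (Nat.mod_eq_of_lt h0) (Nat.mod_eq_of_lt h1) (Nat.mod_eq_of_lt h2) (Nat.mod_eq_of_lt h3)
    (Nat.mod_eq_of_lt h4)).symm

theorem c3_congr {A B C A' B' C' : ℕ} (h0 : A = A') (h1 : B = B') (h2 : C = C') :
    c3 A B C = c3 A' B' C' := by rw [h0, h1, h2]

theorem c4_congr {A B C D A' B' C' D' : ℕ} (h0 : A = A') (h1 : B = B') (h2 : C = C')
    (h3 : D = D') : c4 A B C D = c4 A' B' C' D' := by rw [h0, h1, h2, h3]

theorem xor1 {a b A B : ℕ} (ha : a < 2) (hb : b < 2) :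
    Nat.xor (a + 2 * A) (b + 2 * B) = (a + b) % 2 + 2 * Nat.xor A B := by
  have h0 : ∀ a < 2, ∀ b < 2, Nat.xor a b = (a + b) % 2 := by decide
  have h1 : Nat.xor (a + 2 * A) (b + 2 * B) % 2 = (a + b) % 2 := by
    have := Nat.xor_mod_two_pow (a := a + 2 * A) (b := b + 2 * B) (n := 1)
    rw [show (2 : ℕ) ^ 1 = 2 by norm_num, show (a + 2 * A) % 2 = a by omega,
      show (b + 2 * B) % 2 = b by omega] at this
    exact this.trans (h0 a ha b hb)
  have h2 : Nat.xor (a + 2 * A) (b + 2 * B) / 2 = Nat.xor A B := by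
    have := Nat.xor_div_two_pow (a := a + 2 * A) (b := b + 2 * B) (n := 1)
    rw [show (2 : ℕ) ^ 1 = 2 by norm_num, show (a + 2 * A) / 2 = A by omega,
      show (b + 2 * B) / 2 = B by omega] at this
    exact this
  rw [← h1, ← h2]
  omega

theorem n5_horner (b0 b1 b2 b3 b4 : ℕ) :
    n5 b0 b1 b2 b3 b4 = b0 + 2 * (b1 + 2 * (b2 + 2 * (b3 + 2 * (b4 + 2 * 0)))) := by
  unfold n5
  omega

theorem xor5 : ∀ a0 < 2, ∀ a1 < 2, ∀ a2 < 2, ∀ a3 < 2, ∀ a4 < 2, ∀ b0 < 2, ∀ b1 < 2, ∀ b2 < 2,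
    ∀ b3 < 2, ∀ b4 < 2, Nat.xor (n5 a0 a1 a2 a3 a4) (n5 b0 b1 b2 b3 b4) =
      n5 ((a0 + b0) % 2) ((a1 + b1) % 2) ((a2 + b2) % 2) ((a3 + b3) % 2) ((a4 + b4) % 2) := by
  intro a0 h0 a1 h1 a2 h2 a3 h3 a4 h4 b0 k0 b1 k1 b2 k2 b3 k3 b4 k4
  rw [n5_horner, n5_horner, n5_horner, xor1 h0 k0, xor1 h1 k1, xor1 h2 k2, xor1 h3 k3, xor1 h4 k4]
  rfl

theorem xor_m5 (a0 a1 a2 a3 a4 b0 b1 b2 b3 b4 : ℕ) :
    Nat.xor (m5 a0 a1 a2 a3 a4) (m5 b0 b1 b2 b3 b4) =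
      m5 (a0 + b0) (a1 + b1) (a2 + b2) (a3 + b3) (a4 + b4) := by
  have hm : ∀ a : ℕ, a % 2 < 2 := fun a => Nat.mod_lt _ (by norm_num)
  unfold m5
  rw [xor5 _ (hm _) _ (hm _) _ (hm _) _ (hm _) _ (hm _) _ (hm _) _ (hm _) _ (hm _) _ (hm _) _
    (hm _), ← Nat.add_mod, ← Nat.add_mod, ← Nat.add_mod, ← Nat.add_mod, ← Nat.add_mod]

theorem xor_cat {A B A' B' : ℕ} (hA : A < 32) (hB : B < 32) :
    Nat.xor (A + 32 * A') (B + 32 * B') = Nat.xor A B + 32 * Nat.xor A' B' := by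
  have h1 : Nat.xor (A + 32 * A') (B + 32 * B') % 32 = Nat.xor A B := by
    have := Nat.xor_mod_two_pow (a := A + 32 * A') (b := B + 32 * B') (n := 5)
    rw [show (2 : ℕ) ^ 5 = 32 by norm_num, show (A + 32 * A') % 32 = A by omega,
      show (B + 32 * B') % 32 = B by omega] at this
    exact this
  have h2 : Nat.xor (A + 32 * A') (B + 32 * B') / 32 = Nat.xor A' B' := by
    have := Nat.xor_div_two_pow (a := A + 32 * A') (b := B + 32 * B') (n := 5)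
    rw [show (2 : ℕ) ^ 5 = 32 by norm_num, show (A + 32 * A') / 32 = A' by omega,
      show (B + 32 * B') / 32 = B' by omega] at this
    exact this
  rw [← h1, ← h2]
  omega

theorem xor_c3 {A B C A' B' C' : ℕ} (hA : A < 32) (hB : B < 32) (hA' : A' < 32) (hB' : B' < 32) :
    Nat.xor (c3 A B C) (c3 A' B' C') = c3 (Nat.xor A A') (Nat.xor B B') (Nat.xor C C') := by
  unfold c3
  rw [xor_cat hA hA', xor_cat hB hB']

theorem xor_c4 {A B C D A' B' C' D' : ℕ} (hA : A < 32) (hB : B < 32) (hC : C < 32)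
    (hA' : A' < 32) (hB' : B' < 32) (hC' : C' < 32) :
    Nat.xor (c4 A B C D) (c4 A' B' C' D') =
      c4 (Nat.xor A A') (Nat.xor B B') (Nat.xor C C') (Nat.xor D D') := by
  unfold c4
  rw [xor_cat hA hA', xor_cat hB hB', xor_cat hC hC']

theorem xor_c3m (a0 a1 a2 a3 a4 a5 a6 a7 a8 a9 a10 a11 a12 a13 a14 b0 b1 b2 b3 b4 b5 b6 b7 b8 b9 b10 b11 b12 b13 b14 : ℕ) :
    Nat.xor (c3 (m5 a0 a1 a2 a3 a4) (m5 a5 a6 a7 a8 a9) (m5 a10 a11 a12 a13 a14))
      (c3 (m5 b0 b1 b2 b3 b4) (m5 b5 b6 b7 b8 b9) (m5 b10 b11 b12 b13 b14)) =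
    c3 (m5 (a0 + b0) (a1 + b1) (a2 + b2) (a3 + b3) (a4 + b4)) (m5 (a5 + b5) (a6 + b6) (a7 + b7) (a8 + b8) (a9 + b9)) (m5 (a10 + b10) (a11 + b11) (a12 + b12) (a13 + b13) (a14 + b14)) := by
  rw [xor_c3 (m5_lt _ _ _ _ _) (m5_lt _ _ _ _ _) (m5_lt _ _ _ _ _) (m5_lt _ _ _ _ _), xor_m5, xor_m5, xor_m5]

theorem xor_c4m (a0 a1 a2 a3 a4 a5 a6 a7 a8 a9 a10 a11 a12 a13 a14 a15 a16 a17 a18 a19 b0 b1 b2 b3 b4 b5 b6 b7 b8 b9 b10 b11 b12 b13 b14 b15 b16 b17 b18 b19 : ℕ) :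
    Nat.xor (c4 (m5 a0 a1 a2 a3 a4) (m5 a5 a6 a7 a8 a9) (m5 a10 a11 a12 a13 a14) (m5 a15 a16 a17 a18 a19))
      (c4 (m5 b0 b1 b2 b3 b4) (m5 b5 b6 b7 b8 b9) (m5 b10 b11 b12 b13 b14) (m5 b15 b16 b17 b18 b19)) =
    c4 (m5 (a0 + b0) (a1 + b1) (a2 + b2) (a3 + b3) (a4 + b4)) (m5 (a5 + b5) (a6 + b6) (a7 + b7) (a8 + b8) (a9 + b9)) (m5 (a10 + b10) (a11 + b11) (a12 + b12) (a13 + b13) (a14 + b14)) (m5 (a15 + b15) (a16 + b16) (a17 + b17) (a18 + b18) (a19 + b19)) := by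
  rw [xor_c4 (m5_lt _ _ _ _ _) (m5_lt _ _ _ _ _) (m5_lt _ _ _ _ _) (m5_lt _ _ _ _ _) (m5_lt _ _ _ _ _) (m5_lt _ _ _ _ _), xor_m5, xor_m5, xor_m5, xor_m5]

theorem ones20 : (1048575 : ℕ) = c4 (m5 1 1 1 1 1) (m5 1 1 1 1 1) (m5 1 1 1 1 1) (m5 1 1 1 1 1) := by
  decide +kernel

theorem ones15 : (32767 : ℕ) = c3 (m5 1 1 1 1 1) (m5 1 1 1 1 1) (m5 1 1 1 1 1) := by
  decide +kernel

theorem htl0 : ∀ b0 < 2, ∀ b1 < 2, ∀ b2 < 2, ∀ b3 < 2, ∀ b4 < 2,
    tb tl0 20 1048576 (n5 b0 b1 b2 b3 b4) =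
      c4 (m5 (b0 + b1 + b2) (b0 + b3 + b4) (b1 + b3) (b2 + b4) b0) (m5 b1 b2 b3 b4 0) (m5 b0 b1 b2 b3 b4) (m5 0 0 0 0 0) := by
  decide +kernel

theorem htl1 : ∀ b0 < 2, ∀ b1 < 2, ∀ b2 < 2, ∀ b3 < 2, ∀ b4 < 2,
    tb tl1 20 1048576 (n5 b0 b1 b2 b3 b4) =
      c4 (m5 0 0 b0 b0 (b1 + b2)) (m5 (b1 + b3) (b2 + b3) (b1 + b4) (b2 + b4) (b0 + b3 + b4)) (m5 0 0 0 0 0) (m5 b0 b1 b2 b3 b4) := by
  decide +kernel

theorem htl2 : ∀ b0 < 2, ∀ b1 < 2, ∀ b2 < 2, ∀ b3 < 2, ∀ b4 < 2,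
    tb tl2 20 1048576 (n5 b0 b1 b2 b3 b4) =
      c4 (m5 0 0 0 0 0) (m5 0 0 0 0 0) (m5 (b0 + b1) (b0 + b2) (b1 + b2) (b0 + b3) (b1 + b3)) (m5 (b2 + b3) (b0 + b4) (b1 + b4) (b2 + b4) (b3 + b4)) := by
  decide +kernel

theorem htm0 : ∀ b0 < 2, ∀ b1 < 2, ∀ b2 < 2, ∀ b3 < 2, ∀ b4 < 2,
    tb tm0 15 32768 (n5 b0 b1 b2 b3 b4) =
      c3 (m5 (b0 + b1 + b2 + b3) (b0 + b4) b0 (b1 + b4) b1) (m5 b4 b2 b2 0 0) (m5 b3 b3 0 0 0) := by
  decide +kernel

theorem htm1 : ∀ b0 < 2, ∀ b1 < 2, ∀ b2 < 2, ∀ b3 < 2, ∀ b4 < 2,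
    tb tm1 15 32768 (n5 b0 b1 b2 b3 b4) =
      c3 (m5 0 (b0 + b1) 0 (b2 + b3) 0) (m5 0 (b0 + b2 + b4) 0 b0 b2) (m5 (b1 + b3 + b4) 0 b1 b3 b4) := by
  decide +kernel

theorem htm2 : ∀ b0 < 2, ∀ b1 < 2, ∀ b2 < 2, ∀ b3 < 2, ∀ b4 < 2,
    tb tm2 15 32768 (n5 b0 b1 b2 b3 b4) =
      c3 (m5 0 0 (b0 + b1 + b2) 0 (b0 + b3 + b4)) (m5 b0 0 (b1 + b3) b1 b3) (m5 0 (b2 + b4) b2 b4 0) := by
  decide +kernel

theorem htm3 : ∀ b0 < 2, ∀ b1 < 2, ∀ b2 < 2, ∀ b3 < 2, ∀ b4 < 2,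
    tb tm3 15 32768 (n5 b0 b1 b2 b3 b4) =
      c3 (m5 0 0 0 0 0) (m5 (b1 + b2) 0 b0 (b1 + b3) (b1 + b4)) (m5 0 b0 (b2 + b3) (b2 + b4) (b0 + b3 + b4)) := by
  decide +kernel

/-- the relation between the values; `v (((a * 8 + b) * 8 + c) * 8 + d)` is the value at `a, b, c, d` -/
def Rel (v : ℕ → ℕ) : Prop := ∀ a b c d e : ℕ, a < 8 → b < 8 → c < 8 → d < 8 → e < 8 →
  (v (((a * 8 + b) * 8 + c) * 8 + d) + v (((a * 8 + b) * 8 + c) * 8 + e) +
    v (((a * 8 + b) * 8 + d) * 8 + e) + v (((a * 8 + c) * 8 + d) * 8 + e) +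
    v (((b * 8 + c) * 8 + d) * 8 + e)) % 2 = 1

section

variable (v : ℕ → ℕ) (hv : ∀ q, v q < 2) (H : Rel v)

include hv H

theorem Qval : Nat.xor 32767 (Nat.xor (Nat.xor (tb tm0 15 32768 (n5 (v 83) (v 84) (v 92) (v 156) (v 85))) (tb tm1 15 32768 (n5 (v 93) (v 157) (v 101) (v 165) (v 229))))
    (Nat.xor (tb tm2 15 32768 (n5 (v 86) (v 94) (v 158) (v 102) (v 166))) (tb tm3 15 32768 (n5 (v 230) (v 110) (v 174) (v 238) (v 302))))) =
    c3 (n5 (v 668) (v 669) (v 670) (v 677) (v 678)) (n5 (v 686) (v 741) (v 742) (v 750) (v 814)) (n5 (v 1253) (v 1254) (v 1262) (v 1326) (v 1838)) := by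
  rw [ones15, htm0 _ (hv 83) _ (hv 84) _ (hv 92) _ (hv 156) _ (hv 85), htm1 _ (hv 93) _ (hv 157) _ (hv 101) _ (hv 165) _ (hv 229), htm2 _ (hv 86) _ (hv 94) _ (hv 158) _ (hv 102) _ (hv 166), htm3 _ (hv 230) _ (hv 110) _ (hv 174) _ (hv 238) _ (hv 302),
    xor_c3m, xor_c3m, xor_c3m, xor_c3m]
  refine c3_congr (m5_eq ?_ ?_ ?_ ?_ ?_) (m5_eq ?_ ?_ ?_ ?_ ?_) (m5_eq ?_ ?_ ?_ ?_ ?_)
  · have h : (v 83 + v 84 + v 92 + v 156 + v 668) % 2 = 1 :=
      H 0 1 2 3 4 (by norm_num) (by norm_num) (by norm_num) (by norm_num) (by norm_num)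
    have hb := hv 668
    clear H hv
    omega
  · have h : (v 83 + v 85 + v 93 + v 157 + v 669) % 2 = 1 :=
      H 0 1 2 3 5 (by norm_num) (by norm_num) (by norm_num) (by norm_num) (by norm_num)
    have hb := hv 669
    clear H hv
    omega
  · have h : (v 83 + v 86 + v 94 + v 158 + v 670) % 2 = 1 :=
      H 0 1 2 3 6 (by norm_num) (by norm_num) (by norm_num) (by norm_num) (by norm_num)
    have hb := hv 670
    clear H hv
    omega
  · have h : (v 84 + v 85 + v 101 + v 165 + v 677) % 2 = 1 :=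
      H 0 1 2 4 5 (by norm_num) (by norm_num) (by norm_num) (by norm_num) (by norm_num)
    have hb := hv 677
    clear H hv
    omega
  · have h : (v 84 + v 86 + v 102 + v 166 + v 678) % 2 = 1 :=
      H 0 1 2 4 6 (by norm_num) (by norm_num) (by norm_num) (by norm_num) (by norm_num)
    have hb := hv 678
    clear H hv
    omega
  · have h : (v 85 + v 86 + v 110 + v 174 + v 686) % 2 = 1 :=
      H 0 1 2 5 6 (by norm_num) (by norm_num) (by norm_num) (by norm_num) (by norm_num)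
    have hb := hv 686
    clear H hv
    omega
  · have h : (v 92 + v 93 + v 101 + v 229 + v 741) % 2 = 1 :=
      H 0 1 3 4 5 (by norm_num) (by norm_num) (by norm_num) (by norm_num) (by norm_num)
    have hb := hv 741
    clear H hv
    omega
  · have h : (v 92 + v 94 + v 102 + v 230 + v 742) % 2 = 1 :=
      H 0 1 3 4 6 (by norm_num) (by norm_num) (by norm_num) (by norm_num) (by norm_num)
    have hb := hv 742
    clear H hv
    omega
  · have h : (v 93 + v 94 + v 110 + v 238 + v 750) % 2 = 1 :=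
      H 0 1 3 5 6 (by norm_num) (by norm_num) (by norm_num) (by norm_num) (by norm_num)
    have hb := hv 750
    clear H hv
    omega
  · have h : (v 101 + v 102 + v 110 + v 302 + v 814) % 2 = 1 :=
      H 0 1 4 5 6 (by norm_num) (by norm_num) (by norm_num) (by norm_num) (by norm_num)
    have hb := hv 814
    clear H hv
    omega
  · have h : (v 156 + v 157 + v 165 + v 229 + v 1253) % 2 = 1 :=
      H 0 2 3 4 5 (by norm_num) (by norm_num) (by norm_num) (by norm_num) (by norm_num)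
    have hb := hv 1253
    clear H hv
    omega
  · have h : (v 156 + v 158 + v 166 + v 230 + v 1254) % 2 = 1 :=
      H 0 2 3 4 6 (by norm_num) (by norm_num) (by norm_num) (by norm_num) (by norm_num)
    have hb := hv 1254
    clear H hv
    omega
  · have h : (v 157 + v 158 + v 174 + v 238 + v 1262) % 2 = 1 :=
      H 0 2 3 5 6 (by norm_num) (by norm_num) (by norm_num) (by norm_num) (by norm_num)
    have hb := hv 1262
    clear H hv
    omega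
  · have h : (v 165 + v 166 + v 174 + v 302 + v 1326) % 2 = 1 :=
      H 0 2 4 5 6 (by norm_num) (by norm_num) (by norm_num) (by norm_num) (by norm_num)
    have hb := hv 1326
    clear H hv
    omega
  · have h : (v 229 + v 230 + v 238 + v 302 + v 1838) % 2 = 1 :=
      H 0 3 4 5 6 (by norm_num) (by norm_num) (by norm_num) (by norm_num) (by norm_num)
    have hb := hv 1838
    clear H hv
    omega

theorem Dval : Nat.xor (Nat.xor (Nat.xor (Nat.xor (c4 (n5 (v 83) (v 84) (v 92) (v 156) (v 85)) (n5 (v 93) (v 157) (v 101) (v 165) (v 229)) (n5 (v 86) (v 94) (v 158) (v 102) (v 166)) (n5 (v 230) (v 110) (v 174) (v 238) (v 302))) 1048575)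
    (tb tl2 20 1048576 (n5 (v 119) (v 183) (v 247) (v 311) (v 375)))) (tb tl1 20 1048576 (n5 (v 231) (v 111) (v 175) (v 239) (v 303))))
    (tb tl0 20 1048576 (n5 (v 87) (v 95) (v 159) (v 103) (v 167))) = c4 (n5 (v 671) (v 679) (v 743) (v 1255) (v 687)) (n5 (v 751) (v 1263) (v 815) (v 1327) (v 1839)) (n5 (v 695) (v 759) (v 1271) (v 823) (v 1335)) (n5 (v 1847) (v 887) (v 1399) (v 1911) (v 2423)) := by
  rw [ones20, htl0 _ (hv 87) _ (hv 95) _ (hv 159) _ (hv 103) _ (hv 167), htl1 _ (hv 231) _ (hv 111) _ (hv 175) _ (hv 239) _ (hv 303), htl2 _ (hv 119) _ (hv 183) _ (hv 247) _ (hv 311) _ (hv 375),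
    n5_m5 (hv 83) (hv 84) (hv 92) (hv 156) (hv 85), n5_m5 (hv 93) (hv 157) (hv 101) (hv 165) (hv 229), n5_m5 (hv 86) (hv 94) (hv 158) (hv 102) (hv 166), n5_m5 (hv 230) (hv 110) (hv 174) (hv 238) (hv 302),
    xor_c4m, xor_c4m, xor_c4m, xor_c4m]
  refine c4_congr (m5_eq ?_ ?_ ?_ ?_ ?_) (m5_eq ?_ ?_ ?_ ?_ ?_) (m5_eq ?_ ?_ ?_ ?_ ?_) (m5_eq ?_ ?_ ?_ ?_ ?_)
  · have h : (v 83 + v 87 + v 95 + v 159 + v 671) % 2 = 1 :=
      H 0 1 2 3 7 (by norm_num) (by norm_num) (by norm_num) (by norm_num) (by norm_num)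
    have hb := hv 671
    clear H hv
    omega
  · have h : (v 84 + v 87 + v 103 + v 167 + v 679) % 2 = 1 :=
      H 0 1 2 4 7 (by norm_num) (by norm_num) (by norm_num) (by norm_num) (by norm_num)
    have hb := hv 679
    clear H hv
    omega
  · have h : (v 92 + v 95 + v 103 + v 231 + v 743) % 2 = 1 :=
      H 0 1 3 4 7 (by norm_num) (by norm_num) (by norm_num) (by norm_num) (by norm_num)
    have hb := hv 743
    clear H hv
    omega
  · have h : (v 156 + v 159 + v 167 + v 231 + v 1255) % 2 = 1 :=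
      H 0 2 3 4 7 (by norm_num) (by norm_num) (by norm_num) (by norm_num) (by norm_num)
    have hb := hv 1255
    clear H hv
    omega
  · have h : (v 85 + v 87 + v 111 + v 175 + v 687) % 2 = 1 :=
      H 0 1 2 5 7 (by norm_num) (by norm_num) (by norm_num) (by norm_num) (by norm_num)
    have hb := hv 687
    clear H hv
    omega
  · have h : (v 93 + v 95 + v 111 + v 239 + v 751) % 2 = 1 :=
      H 0 1 3 5 7 (by norm_num) (by norm_num) (by norm_num) (by norm_num) (by norm_num)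
    have hb := hv 751
    clear H hv
    omega
  · have h : (v 157 + v 159 + v 175 + v 239 + v 1263) % 2 = 1 :=
      H 0 2 3 5 7 (by norm_num) (by norm_num) (by norm_num) (by norm_num) (by norm_num)
    have hb := hv 1263
    clear H hv
    omega
  · have h : (v 101 + v 103 + v 111 + v 303 + v 815) % 2 = 1 :=
      H 0 1 4 5 7 (by norm_num) (by norm_num) (by norm_num) (by norm_num) (by norm_num)
    have hb := hv 815
    clear H hv
    omega
  · have h : (v 165 + v 167 + v 175 + v 303 + v 1327) % 2 = 1 :=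
      H 0 2 4 5 7 (by norm_num) (by norm_num) (by norm_num) (by norm_num) (by norm_num)
    have hb := hv 1327
    clear H hv
    omega
  · have h : (v 229 + v 231 + v 239 + v 303 + v 1839) % 2 = 1 :=
      H 0 3 4 5 7 (by norm_num) (by norm_num) (by norm_num) (by norm_num) (by norm_num)
    have hb := hv 1839
    clear H hv
    omega
  · have h : (v 86 + v 87 + v 119 + v 183 + v 695) % 2 = 1 :=
      H 0 1 2 6 7 (by norm_num) (by norm_num) (by norm_num) (by norm_num) (by norm_num)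
    have hb := hv 695
    clear H hv
    omega
  · have h : (v 94 + v 95 + v 119 + v 247 + v 759) % 2 = 1 :=
      H 0 1 3 6 7 (by norm_num) (by norm_num) (by norm_num) (by norm_num) (by norm_num)
    have hb := hv 759
    clear H hv
    omega
  · have h : (v 158 + v 159 + v 183 + v 247 + v 1271) % 2 = 1 :=
      H 0 2 3 6 7 (by norm_num) (by norm_num) (by norm_num) (by norm_num) (by norm_num)
    have hb := hv 1271
    clear H hv
    omega
  · have h : (v 102 + v 103 + v 119 + v 311 + v 823) % 2 = 1 :=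
      H 0 1 4 6 7 (by norm_num) (by norm_num) (by norm_num) (by norm_num) (by norm_num)
    have hb := hv 823
    clear H hv
    omega
  · have h : (v 166 + v 167 + v 183 + v 311 + v 1335) % 2 = 1 :=
      H 0 2 4 6 7 (by norm_num) (by norm_num) (by norm_num) (by norm_num) (by norm_num)
    have hb := hv 1335
    clear H hv
    omega
  · have h : (v 230 + v 231 + v 247 + v 311 + v 1847) % 2 = 1 :=
      H 0 3 4 6 7 (by norm_num) (by norm_num) (by norm_num) (by norm_num) (by norm_num)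
    have hb := hv 1847
    clear H hv
    omega
  · have h : (v 110 + v 111 + v 119 + v 375 + v 887) % 2 = 1 :=
      H 0 1 5 6 7 (by norm_num) (by norm_num) (by norm_num) (by norm_num) (by norm_num)
    have hb := hv 887
    clear H hv
    omega
  · have h : (v 174 + v 175 + v 183 + v 375 + v 1399) % 2 = 1 :=
      H 0 2 5 6 7 (by norm_num) (by norm_num) (by norm_num) (by norm_num) (by norm_num)
    have hb := hv 1399
    clear H hv
    omega
  · have h : (v 238 + v 239 + v 247 + v 375 + v 1911) % 2 = 1 :=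
      H 0 3 5 6 7 (by norm_num) (by norm_num) (by norm_num) (by norm_num) (by norm_num)
    have hb := hv 1911
    clear H hv
    omega
  · have h : (v 302 + v 303 + v 311 + v 375 + v 2423) % 2 = 1 :=
      H 0 4 5 6 7 (by norm_num) (by norm_num) (by norm_num) (by norm_num) (by norm_num)
    have hb := hv 2423
    clear H hv
    omega

end

end Pool.Agent.Y872.Q440
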