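import Pool.Agent.Y440.A.Word

/-!
# Soundness of the packed enumeration of the extensions

The words are linear forms in the values of `E` at quadruples; the two forms are compared by
evaluation.
-/

set_option autoImplicit false
set_option maxRecDepth 100000

namespace Pool.Agent.Y872.Q440

open Pool.Agent.Y440.A

/-! ### linear forms -/

/-- linear forms: coefficients and indices -/
abbrev Lin := List (ℕ × ℕ)

/-- value of a linear form -/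
def ev (v : ℕ → ℕ) : Lin → ℕ
  | [] => 0
  | (c, q) :: l => c * v q + ev v l

/-- multiple of a linear form -/
def sm (k : ℕ) : Lin → Lin
  | [] => []
  | (c, q) :: l => (k * c, q) :: sm k l

theorem ev_append (v : ℕ → ℕ) (l m : Lin) : ev v (l ++ m) = ev v l + ev v m := by
  induction l with
  | nil => simp [ev]
  | cons p l ih =>
    obtain ⟨c, q⟩ := p
    rw [List.cons_append, ev, ev, ih, Nat.add_assoc]

theorem ev_sm (v : ℕ → ℕ) (k : ℕ) (l : Lin) : ev v (sm k l) = k * ev v l := by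
  induction l with
  | nil => simp [ev, sm]
  | cons p l ih =>
    obtain ⟨c, q⟩ := p
    rw [sm, ev, ev, ih, Nat.mul_add, Nat.mul_assoc]

/-- insertion of a term -/
def ins (c q : ℕ) : Lin → Lin
  | [] => [(c, q)]
  | (c', q') :: l => if q = q' then (c + c', q') :: l
      else if q < q' then (c, q) :: (c', q') :: l else (c', q') :: ins c q l

theorem ev_ins (v : ℕ → ℕ) (c q : ℕ) (l : Lin) : ev v (ins c q l) = c * v q + ev v l := by
  induction l with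
  | nil => rfl
  | cons p l ih =>
    obtain ⟨c', q'⟩ := p
    unfold ins
    split
    · next h => subst h; rw [ev, ev, Nat.add_mul, Nat.add_assoc]
    · split
      · rfl
      · rw [ev, ev, ih]; omega

/-- normal form -/
def norm : Lin → Lin
  | [] => []
  | (c, q) :: l => ins c q (norm l)

theorem ev_norm (v : ℕ → ℕ) (l : Lin) : ev v (norm l) = ev v l := by
  induction l with
  | nil => rfl
  | cons p l ih =>
    obtain ⟨c, q⟩ := p
    rw [norm, ev_ins, ih, ev]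

/-! ### indices of quadruples -/

/-- code of a quadruple of numbers below eight -/
def cde (a b c d : ℕ) : ℕ := ((a * 8 + b) * 8 + c) * 8 + d

/-- code of the sorted quadruple -/
def srt (a b c d : ℕ) : ℕ :=
  cde (min (min a b) (min (max a b) (min c d)))
    (min (max (min a b) (min (max a b) (min c d))) (min (max (max a b) (min c d)) (max c d)))
    (max (max (min a b) (min (max a b) (min c d))) (min (max (max a b) (min c d)) (max c d)))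
    (max (max (max a b) (min c d)) (max c d))

def sE (i j k l : ℕ) : Lin := [(1, srt (i % 8) (j % 8) (k % 8) (l % 8))]

section
variable {V : Type} (E : V → V → V → V → ℕ) (x : Fin 8 → V)

/-- the points with indices in the natural numbers -/
def px (n : ℕ) : V := x (Fin.ofNat 8 n)

/-- the value of `E` at the quadruple with the given code -/
def vl (q : ℕ) : ℕ := E (px x (q / 512)) (px x (q / 64 % 8)) (px x (q / 8 % 8)) (px x (q % 8))

theorem px_mod (n : ℕ) : px x (n % 8) = px x n := by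
  unfold px
  congr 1
  apply Fin.ext
  simp [Fin.ofNat]

theorem vl_cde {a b c d : ℕ} (_ : a < 8) (hb : b < 8) (hc : c < 8) (hd : d < 8) :
    vl E x (cde a b c d) = E (px x a) (px x b) (px x c) (px x d) := by
  unfold vl
  have e1 : cde a b c d / 512 = a := by unfold cde; omega
  have e2 : cde a b c d / 64 % 8 = b := by unfold cde; omega
  have e3 : cde a b c d / 8 % 8 = c := by unfold cde; omega
  have e4 : cde a b c d % 8 = d := by unfold cde; omega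
  rw [e1, e2, e3, e4]

variable {E}

theorem m01 (h : Odd4 E) (f : ℕ → V) (a b : ℕ) (c d : V) :
    E (f (min a b)) (f (max a b)) c d = E (f a) (f b) c d := by
  rcases le_total a b with k | k
  · rw [min_eq_left k, max_eq_right k]
  · rw [min_eq_right k, max_eq_left k, h.s0]

theorem m12 (h : Odd4 E) (f : ℕ → V) (a b : ℕ) (c d : V) :
    E c (f (min a b)) (f (max a b)) d = E c (f a) (f b) d := by
  rcases le_total a b with k | k
  · rw [min_eq_left k, max_eq_right k]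
  · rw [min_eq_right k, max_eq_left k, h.s1]

theorem m23 (h : Odd4 E) (f : ℕ → V) (a b : ℕ) (c d : V) :
    E c d (f (min a b)) (f (max a b)) = E c d (f a) (f b) := by
  rcases le_total a b with k | k
  · rw [min_eq_left k, max_eq_right k]
  · rw [min_eq_right k, max_eq_left k, h.s2]

theorem vl_srt (h : Odd4 E) {a b c d : ℕ} (ha : a < 8) (hb : b < 8) (hc : c < 8) (hd : d < 8) :
    vl E x (srt a b c d) = E (px x a) (px x b) (px x c) (px x d) := by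
  unfold srt
  rw [vl_cde E x (by omega) (by omega) (by omega) (by omega)]
  rw [m12 h, m01 h, m23 h, m12 h, m01 h, m23 h]

theorem ev_sE (h : Odd4 E) (i j k l : ℕ) :
    ev (vl E x) (sE i j k l) = E (px x i) (px x j) (px x k) (px x l) := by
  unfold sE
  rw [ev, ev, vl_srt x h (Nat.mod_lt _ (by norm_num)) (Nat.mod_lt _ (by norm_num))
    (Nat.mod_lt _ (by norm_num)) (Nat.mod_lt _ (by norm_num)), px_mod, px_mod, px_mod, px_mod]
  omega

end

/-! ### the word as a linear form -/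

def sb10 (b0 b1 b2 b3 b4 b5 b6 b7 b8 b9 : Lin) : Lin :=
  b0 ++ sm 2 (b1 ++ sm 2 (b2 ++ sm 2 (b3 ++ sm 2 (b4 ++ sm 2 (b5 ++ sm 2 (b6 ++ sm 2 (b7 ++
    sm 2 (b8 ++ sm 2 b9))))))))

theorem ev_sb10 (v : ℕ → ℕ) (b0 b1 b2 b3 b4 b5 b6 b7 b8 b9 : Lin) :
    ev v (sb10 b0 b1 b2 b3 b4 b5 b6 b7 b8 b9) = b10 (ev v b0) (ev v b1) (ev v b2) (ev v b3)
      (ev v b4) (ev v b5) (ev v b6) (ev v b7) (ev v b8) (ev v b9) := by
  simp only [sb10, b10, ev_append, ev_sm]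

def scd (a b c d e f : ℕ) : Lin :=
  sb10 (sE a b c d) (sE a b c e) (sE a b d e) (sE a c d e) (sE a b c f) (sE a b d f) (sE a c d f)
    (sE a b e f) (sE a c e f) (sE a d e f)

def sfl (a b c d e f u : ℕ) : Lin :=
  sb10 (sE a b c u) (sE a b d u) (sE a c d u) (sE a b e u) (sE a c e u) (sE a d e u) (sE a b f u)
    (sE a c f u) (sE a d f u) (sE a e f u)

def sfd (a b c d e f u v : ℕ) : Lin :=
  scd a b c d e f ++ sm 1024 (sfl a b c d e f u) ++ sm 1048576 (sfl a b c d e f v)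

def st7 (x0 x1 x2 x3 x4 x5 x6 : ℕ) : Lin :=
  sE x0 x1 x2 x3 ++ (sE x0 x1 x2 x4 ++ (sE x0 x1 x2 x5 ++ (sE x0 x1 x2 x6 ++ (sE x0 x1 x3 x4 ++ (sE x0 x1 x3 x5 ++ (sE x0 x1 x3 x6 ++ (sE x0 x1 x4 x5 ++ (sE x0 x1 x4 x6 ++ (sE x0 x1 x5 x6 ++ (sE x0 x2 x3 x4 ++ (sE x0 x2 x3 x5 ++ (sE x0 x2 x3 x6 ++ (sE x0 x2 x4 x5 ++ (sE x0 x2 x4 x6 ++ (sE x0 x2 x5 x6 ++ (sE x0 x3 x4 x5 ++ (sE x0 x3 x4 x6 ++ (sE x0 x3 x5 x6 ++ (sE x0 x4 x5 x6 ++ (sE x1 x2 x3 x4 ++ (sE x1 x2 x3 x5 ++ (sE x1 x2 x3 x6 ++ (sE x1 x2 x4 x5 ++ (sE x1 x2 x4 x6 ++ (sE x1 x2 x5 x6 ++ (sE x1 x3 x4 x5 ++ (sE x1 x3 x4 x6 ++ (sE x1 x3 x5 x6 ++ (sE x1 x4 x5 x6 ++ (sE x2 x3 x4 x5 ++ (sE x2 x3 x4 x6 ++ (sE x2 x3 x5 x6 ++ (sE x2 x4 x5 x6 ++ (sE x3 x4 x5 x6))))))))))))))))))))))))))))))))))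

def sg7 (x0 x1 x2 x3 x4 x5 x6 x7 : ℕ) : Lin :=
  sE x0 x1 x2 x7 ++ (sE x0 x1 x3 x7 ++ (sE x0 x1 x4 x7 ++ (sE x0 x1 x5 x7 ++ (sE x0 x1 x6 x7 ++ (sE x0 x2 x3 x7 ++ (sE x0 x2 x4 x7 ++ (sE x0 x2 x5 x7 ++ (sE x0 x2 x6 x7 ++ (sE x0 x3 x4 x7 ++ (sE x0 x3 x5 x7 ++ (sE x0 x3 x6 x7 ++ (sE x0 x4 x5 x7 ++ (sE x0 x4 x6 x7 ++ (sE x0 x5 x6 x7 ++ (sE x1 x2 x3 x7 ++ (sE x1 x2 x4 x7 ++ (sE x1 x2 x5 x7 ++ (sE x1 x2 x6 x7 ++ (sE x1 x3 x4 x7 ++ (sE x1 x3 x5 x7 ++ (sE x1 x3 x6 x7 ++ (sE x1 x4 x5 x7 ++ (sE x1 x4 x6 x7 ++ (sE x1 x5 x6 x7 ++ (sE x2 x3 x4 x7 ++ (sE x2 x3 x5 x7 ++ (sE x2 x3 x6 x7 ++ (sE x2 x4 x5 x7 ++ (sE x2 x4 x6 x7 ++ (sE x2 x5 x6 x7 ++ (sE x3 x4 x5 x7 ++ (sE x3 x4 x6 x7 ++ (sE x3 x5 x6 x7 ++ (sE x4 x5 x6 x7))))))))))))))))))))))))))))))))))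

def sD8 (x0 x1 x2 x3 x4 x5 x6 x7 : ℕ) : Lin := st7 x0 x1 x2 x3 x4 x5 x6 ++ sg7 x0 x1 x2 x3 x4 x5 x6 x7

def sfds : List Lin := [
  sfd 2 3 4 5 6 7 0 1,
  sfd 1 3 4 5 6 7 0 2,
  sfd 1 2 4 5 6 7 0 3,
  sfd 1 2 3 5 6 7 0 4,
  sfd 1 2 3 4 6 7 0 5,
  sfd 1 2 3 4 5 7 0 6,
  sfd 1 2 3 4 5 6 0 7,
  sfd 0 3 4 5 6 7 1 2,
  sfd 0 2 4 5 6 7 1 3,
  sfd 0 2 3 5 6 7 1 4,
  sfd 0 2 3 4 6 7 1 5,
  sfd 0 2 3 4 5 7 1 6,
  sfd 0 2 3 4 5 6 1 7,
  sfd 0 1 4 5 6 7 2 3,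
  sfd 0 1 3 5 6 7 2 4,
  sfd 0 1 3 4 6 7 2 5,
  sfd 0 1 3 4 5 7 2 6,
  sfd 0 1 3 4 5 6 2 7,
  sfd 0 1 2 5 6 7 3 4,
  sfd 0 1 2 4 6 7 3 5,
  sfd 0 1 2 4 5 7 3 6,
  sfd 0 1 2 4 5 6 3 7,
  sfd 0 1 2 3 6 7 4 5,
  sfd 0 1 2 3 5 7 4 6,
  sfd 0 1 2 3 5 6 4 7,
  sfd 0 1 2 3 4 7 5 6,
  sfd 0 1 2 3 4 6 5 7,
  sfd 0 1 2 3 4 5 6 7]

def slns : List Lin := [sD8 0 1 2 3 4 5 6 7,
  st7 1 2 3 4 5 6 7,
  st7 0 2 3 4 5 6 7,
  st7 0 1 3 4 5 6 7,
  st7 0 1 2 4 5 6 7,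
  st7 0 1 2 3 5 6 7,
  st7 0 1 2 3 4 6 7,
  st7 0 1 2 3 4 5 7,
  st7 0 1 2 3 4 5 6]

def spk (w : ℕ) (l : List Lin) : Lin := l.foldr (fun v r => v ++ sm (2 ^ w) r) []

theorem ev_spk (v : ℕ → ℕ) (w : ℕ) (l : List Lin) : ev v (spk w l) = pk w (l.map (ev v)) := by
  induction l with
  | nil => rfl
  | cons a l ih =>
    show ev v (a ++ sm (2 ^ w) (spk w l)) = ev v a + 2 ^ w * pk w (l.map (ev v))
    rw [ev_append, ev_sm, ih]

def swd : Lin := spk 8 slns ++ sm (2 ^ 72) (spk 30 sfds)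

section
variable {V : Type} {E : V → V → V → V → ℕ} (x : Fin 8 → V)

theorem ev_scd (h : Odd4 E) (a b c d e f : ℕ) : ev (vl E x) (scd a b c d e f) =
    cd E (px x a) (px x b) (px x c) (px x d) (px x e) (px x f) := by
  simp only [scd, cd, ev_sb10, ev_sE x h]

theorem ev_sfl (h : Odd4 E) (a b c d e f u : ℕ) : ev (vl E x) (sfl a b c d e f u) =
    fl E (px x a) (px x b) (px x c) (px x d) (px x e) (px x f) (px x u) := by
  simp only [sfl, fl, ev_sb10, ev_sE x h]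

theorem ev_sfd (h : Odd4 E) (a b c d e f u v : ℕ) : ev (vl E x) (sfd a b c d e f u v) =
    fd E (px x a) (px x b) (px x c) (px x d) (px x e) (px x f) (px x u) (px x v) := by
  simp only [sfd, fd, ev_append, ev_sm, ev_scd x h, ev_sfl x h]

theorem ev_st7 (h : Odd4 E) (a b c d e f g : ℕ) : ev (vl E x) (st7 a b c d e f g) =
    t7 E (px x a) (px x b) (px x c) (px x d) (px x e) (px x f) (px x g) := by
  unfold st7
  simp only [ev_append]
  simp only [ev_sE x h]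
  exact Eq.refl (t7 E (px x a) (px x b) (px x c) (px x d) (px x e) (px x f) (px x g))

theorem ev_sg7 (h : Odd4 E) (a b c d e f g u : ℕ) : ev (vl E x) (sg7 a b c d e f g u) =
    g7 E (px x a) (px x b) (px x c) (px x d) (px x e) (px x f) (px x g) (px x u) := by
  unfold sg7
  simp only [ev_append]
  simp only [ev_sE x h]
  exact Eq.refl (g7 E (px x a) (px x b) (px x c) (px x d) (px x e) (px x f) (px x g) (px x u))

theorem ev_sD8 (h : Odd4 E) (a b c d e f g u : ℕ) : ev (vl E x) (sD8 a b c d e f g u) =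
    D8 E (px x a) (px x b) (px x c) (px x d) (px x e) (px x f) (px x g) (px x u) := by
  simp only [sD8, D8, ev_append, ev_st7 x h, ev_sg7 x h]

theorem ev_slns (h : Odd4 E) : slns.map (ev (vl E x)) =
    lns E (px x 0) (px x 1) (px x 2) (px x 3) (px x 4) (px x 5) (px x 6) (px x 7) := by
  simp only [slns, List.map, ev_st7 x h, ev_sD8 x h]
  exact Eq.refl (lns E (px x 0) (px x 1) (px x 2) (px x 3) (px x 4) (px x 5) (px x 6) (px x 7))

theorem ev_sfds (h : Odd4 E) : sfds.map (ev (vl E x)) =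
    fds E (px x 0) (px x 1) (px x 2) (px x 3) (px x 4) (px x 5) (px x 6) (px x 7) := by
  simp only [sfds, List.map, ev_sfd x h]
  exact Eq.refl (fds E (px x 0) (px x 1) (px x 2) (px x 3) (px x 4) (px x 5) (px x 6) (px x 7))

theorem ev_swd (h : Odd4 E) : ev (vl E x) swd = wd E x := by
  rw [swd, ev_append, ev_sm, ev_spk, ev_spk, ev_slns x h, ev_sfds x h]
  rfl

end

end Pool.Agent.Y872.Q440
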