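import Pool.Agent.Y872.Q440.Lin
import Pool.Agent.Y872.Q440.Bits

/-!
# Soundness of the packed enumeration of the extensions

The word of a structure and the word assembled from the tables are the same linear form in the
values of `E` at sorted quadruples.
-/

set_option autoImplicit false
set_option maxRecDepth 100000

namespace Pool.Agent.Y872.Q440

open Pool.Agent.Y440.A

@[reducible] def TL (T : ℕ) : Prop := ∀ b0 < 2, ∀ b1 < 2, ∀ b2 < 2, ∀ b3 < 2, ∀ b4 < 2,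
  fW T (n5 b0 b1 b2 b3 b4) =
    fW T 1 * b0 + (fW T 2 * b1 + (fW T 4 * b2 + (fW T 8 * b3 + (fW T 16 * b4 + 0))))

theorem hta0 : TL ta0 := by decide +kernel

theorem hta1 : TL ta1 := by decide +kernel

theorem hta2 : TL ta2 := by decide +kernel

theorem htt0 : TL tt0 := by decide +kernel

theorem htt1 : TL tt1 := by decide +kernel

theorem htt2 : TL tt2 := by decide +kernel

theorem htt3 : TL tt3 := by decide +kernel

theorem htr0 : TL tr0 := by decide +kernel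

theorem htr1 : TL tr1 := by decide +kernel

theorem htr2 : TL tr2 := by decide +kernel

theorem htr3 : TL tr3 := by decide +kernel

theorem hts0 : TL ts0 := by decide +kernel

theorem hts1 : TL ts1 := by decide +kernel

theorem hts2 : TL ts2 := by decide +kernel

/-- linear form of a table -/
def tf (T c0 c1 c2 c3 c4 : ℕ) : Lin :=
  [(fW T 1, c0), (fW T 2, c1), (fW T 4, c2), (fW T 8, c3), (fW T 16, c4)]

theorem ev_tf {T : ℕ} (h : TL T) (v : ℕ → ℕ) (hv : ∀ q, v q < 2) (c0 c1 c2 c3 c4 : ℕ) :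
    ev v (tf T c0 c1 c2 c3 c4) = fW T (n5 (v c0) (v c1) (v c2) (v c3) (v c4)) := by
  rw [h _ (hv c0) _ (hv c1) _ (hv c2) _ (hv c3) _ (hv c4)]
  rfl

/-- the word of the tables as a linear form -/
def twd : Lin :=
  ((((((tf tr0 83 84 92 156 85 ++ tf tr1 93 157 101 165 229) ++ (tf tr2 86 94 158 102 166 ++ tf tr3 230 110 174 238 302)) ++ ((tf ts0 668 669 670 677 678 ++ tf ts1 686 741 742 750 814) ++ tf ts2 1253 1254 1262 1326 1838)) ++ tf ta2 119 183 247 311 375) ++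
    tf ta1 231 111 175 239 303) ++ tf ta0 87 95 159 103 167) ++
    ((tf tt0 671 679 743 1255 687 ++ tf tt1 751 1263 815 1327 1839) ++ (tf tt2 695 759 1271 823 1335 ++ tf tt3 1847 887 1399 1911 2423))

theorem norm_eq : norm swd = norm twd := by decide +kernel

theorem ev_twd (v : ℕ → ℕ) (hv : ∀ q, v q < 2) : ev v twd =
  ((((((fW tr0 (n5 (v 83) (v 84) (v 92) (v 156) (v 85)) + fW tr1 (n5 (v 93) (v 157) (v 101) (v 165) (v 229))) + (fW tr2 (n5 (v 86) (v 94) (v 158) (v 102) (v 166)) + fW tr3 (n5 (v 230) (v 110) (v 174) (v 238) (v 302)))) + ((fW ts0 (n5 (v 668) (v 669) (v 670) (v 677) (v 678)) + fW ts1 (n5 (v 686) (v 741) (v 742) (v 750) (v 814))) + fW ts2 (n5 (v 1253) (v 1254) (v 1262) (v 1326) (v 1838)))) + fW ta2 (n5 (v 119) (v 183) (v 247) (v 311) (v 375))) +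
    fW ta1 (n5 (v 231) (v 111) (v 175) (v 239) (v 303))) + fW ta0 (n5 (v 87) (v 95) (v 159) (v 103) (v 167))) +
    ((fW tt0 (n5 (v 671) (v 679) (v 743) (v 1255) (v 687)) + fW tt1 (n5 (v 751) (v 1263) (v 815) (v 1327) (v 1839))) + (fW tt2 (n5 (v 695) (v 759) (v 1271) (v 823) (v 1335)) + fW tt3 (n5 (v 1847) (v 887) (v 1399) (v 1911) (v 2423)))) := by
  unfold twd
  simp only [ev_append]
  rw [ev_tf htr0 v hv, ev_tf htr1 v hv, ev_tf htr2 v hv, ev_tf htr3 v hv, ev_tf hts0 v hv, ev_tf hts1 v hv, ev_tf hts2 v hv, ev_tf hta2 v hv, ev_tf hta1 v hv, ev_tf hta0 v hv, ev_tf htt0 v hv, ev_tf htt1 v hv, ev_tf htt2 v hv, ev_tf htt3 v hv]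

theorem chk_eq (leaf : ℕ → Bool) (r : ℕ) :
    chk leaf r = al 32 (outer leaf (WB r) (Nat.xor r 1048575)) := by
  unfold chk
  rw [st_eq, st_eq]

theorem outer_eq (leaf : ℕ → Bool) (Y D i : ℕ) : outer leaf Y D i =
    al 32 (middle leaf (Nat.add Y (fW ta2 i)) (Nat.xor D (tb tl2 20 1048576 i))) := by
  unfold outer
  rw [st_eq, st_eq]

theorem middle_eq (leaf : ℕ → Bool) (Y D i : ℕ) : middle leaf Y D i =
    al 32 (Pool.Agent.Y440.A.inner leaf (Nat.add Y (fW ta1 i))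
      (Nat.xor D (tb tl1 20 1048576 i))) := by
  unfold middle
  rw [st_eq, st_eq]

theorem dig4 {A B C D : ℕ} (hA : A < 32) (hB : B < 32) (hC : C < 32) :
    Nat.mod (c4 A B C D) 32 = A ∧ Nat.mod (Nat.div (c4 A B C D) 32) 32 = B ∧
      Nat.mod (Nat.div (c4 A B C D) 1024) 32 = C ∧ Nat.div (c4 A B C D) 32768 = D := by
  unfold c4
  refine ⟨?_, ?_, ?_, ?_⟩
  · show (A + 32 * (B + 32 * (C + 32 * D))) % 32 = A
    omega
  · show (A + 32 * (B + 32 * (C + 32 * D))) / 32 % 32 = B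
    omega
  · show (A + 32 * (B + 32 * (C + 32 * D))) / 1024 % 32 = C
    omega
  · show (A + 32 * (B + 32 * (C + 32 * D))) / 32768 = D
    omega

theorem dig3 {A B C : ℕ} (hA : A < 32) (hB : B < 32) :
    Nat.mod (c3 A B C) 32 = A ∧ Nat.mod (Nat.div (c3 A B C) 32) 32 = B ∧
      Nat.div (c3 A B C) 1024 = C := by
  unfold c3
  refine ⟨?_, ?_, ?_⟩
  · show (A + 32 * (B + 32 * C)) % 32 = A
    omega
  · show (A + 32 * (B + 32 * C)) / 32 % 32 = B
    omega
  · show (A + 32 * (B + 32 * C)) / 1024 = C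
    omega

theorem inner_eq (leaf : ℕ → Bool) (Y D i A B C F : ℕ) (hA : A < 32) (hB : B < 32) (hC : C < 32)
    (h : Nat.xor D (tb tl0 20 1048576 i) = c4 A B C F) :
    Pool.Agent.Y440.A.inner leaf Y D i = leaf (Nat.add (Nat.add Y (fW ta0 i)) (Nat.add
      (Nat.add (fW tt0 A) (fW tt1 B)) (Nat.add (fW tt2 C) (fW tt3 F)))) := by
  obtain ⟨h1, h2, h3, h4⟩ := dig4 (D := F) hA hB hC
  unfold Pool.Agent.Y440.A.inner
  rw [st_eq, st_eq, h, h1, h2, h3, h4]

theorem WB_eq (A B C F a b c : ℕ) (hA : A < 32) (hB : B < 32) (hC : C < 32) (ha : a < 32)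
    (hb : b < 32)
    (h : Nat.xor 32767 (Nat.xor (Nat.xor (tb tm0 15 32768 A) (tb tm1 15 32768 B))
      (Nat.xor (tb tm2 15 32768 C) (tb tm3 15 32768 F))) = c3 a b c) :
    WB (c4 A B C F) = Nat.add (Nat.add (Nat.add (fW tr0 A) (fW tr1 B))
      (Nat.add (fW tr2 C) (fW tr3 F))) (Nat.add (Nat.add (fW ts0 a) (fW ts1 b)) (fW ts2 c)) := by
  obtain ⟨h1, h2, h3, h4⟩ := dig4 (D := F) hA hB hC
  obtain ⟨k1, k2, k3⟩ := dig3 (C := c) ha hb
  unfold WB
  rw [st_eq, h1, h2, h3, h4, h, k1, k2, k3]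

theorem al_of {n : ℕ} {f : ℕ → Bool} (h : al n f = true) : ∀ k < n, f k = true := by
  induction n with
  | zero => intro k hk; omega
  | succ n ih =>
    have h1 : bc (f n) (al n f) false = true := h
    cases hf : f n with
    | false => rw [hf] at h1; exact absurd h1 Bool.false_ne_true
    | true =>
      rw [hf] at h1
      intro k hk
      rcases Nat.lt_succ_iff_lt_or_eq.1 hk with h2 | h2
      · exact ih h1 k h2
      · rw [h2, hf]

theorem chk_leaf (leaf : ℕ → Bool) (v : ℕ → ℕ) (hv : ∀ q, v q < 2) (H : Rel v)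
    (h : chk leaf (c4 (n5 (v 83) (v 84) (v 92) (v 156) (v 85)) (n5 (v 93) (v 157) (v 101) (v 165) (v 229)) (n5 (v 86) (v 94) (v 158) (v 102) (v 166)) (n5 (v 230) (v 110) (v 174) (v 238) (v 302))) = true) :
    leaf (ev v twd) = true := by
  have lt : ∀ a b c d e : ℕ, n5 (v a) (v b) (v c) (v d) (v e) < 32 := fun a b c d e =>
    n5_lt (hv _) (hv _) (hv _) (hv _) (hv _)
  rw [chk_eq] at h
  have h1 := al_of h _ (lt 119 183 247 311 375)
  rw [outer_eq] at h1
  have h2 := al_of h1 _ (lt 231 111 175 239 303)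
  rw [middle_eq] at h2
  have h3 := al_of h2 _ (lt 87 95 159 103 167)
  rw [inner_eq leaf _ _ _ _ _ _ _ (lt _ _ _ _ _) (lt _ _ _ _ _) (lt _ _ _ _ _) (Dval v hv H),
    WB_eq _ _ _ _ _ _ _ (lt _ _ _ _ _) (lt _ _ _ _ _) (lt _ _ _ _ _) (lt _ _ _ _ _)
      (lt _ _ _ _ _) (Qval v hv H)] at h3
  rw [ev_twd v hv]
  exact h3

theorem b10_c4 (e0 e1 e2 e3 e4 e5 e6 e7 e8 e9 e10 e11 e12 e13 e14 e15 e16 e17 e18 e19 : ℕ) :
    b10 e0 e1 e2 e3 e4 e5 e6 e7 e8 e9 + 1024 * b10 e10 e11 e12 e13 e14 e15 e16 e17 e18 e19 =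
      c4 (n5 e0 e1 e2 e3 e4) (n5 e5 e6 e7 e8 e9) (n5 e10 e11 e12 e13 e14) (n5 e15 e16 e17 e18 e19) := by
  unfold b10 c4 n5
  omega

theorem cd7_eq {V : Type} {E : V → V → V → V → ℕ} (x : Fin 8 → V) :
    cd7 E (fun i : Fin 7 => x i.castSucc) = cd E (px x 0) (px x 1) (px x 2) (px x 3) (px x 4)
      (px x 5) + 1024 * fl E (px x 0) (px x 1) (px x 2) (px x 3) (px x 4) (px x 5) (px x 6) := rfl

theorem cd7_c4 {V : Type} {E : V → V → V → V → ℕ} (x : Fin 8 → V) :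
    cd7 E (fun i : Fin 7 => x i.castSucc) =
      c4 (n5 (vl E x 83) (vl E x 84) (vl E x 92) (vl E x 156) (vl E x 85)) (n5 (vl E x 93) (vl E x 157) (vl E x 101) (vl E x 165) (vl E x 229))
        (n5 (vl E x 86) (vl E x 94) (vl E x 158) (vl E x 102) (vl E x 166)) (n5 (vl E x 230) (vl E x 110) (vl E x 174) (vl E x 238) (vl E x 302)) := by
  rw [cd7_eq]
  unfold cd fl
  rw [b10_c4]
  rfl

/-- statement WORD -/
theorem t : S_word := by
  intro leaf V E hE x h
  have hv : ∀ q, vl E x q < 2 := by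
    intro q
    unfold vl
    rcases hE.bt (px x (q / 512)) (px x (q / 64 % 8)) (px x (q / 8 % 8)) (px x (q % 8)) with h | h <;>
      omega
  have H : Rel (vl E x) := by
    intro a b c d e ha hb hc hd he
    have h1 := hE.odd (px x a) (px x b) (px x c) (px x d) (px x e)
    rw [← vl_cde E x ha hb hc hd, ← vl_cde E x ha hb hc he, ← vl_cde E x ha hb hd he,
      ← vl_cde E x ha hc hd he, ← vl_cde E x hb hc hd he] at h1
    exact h1
  rw [cd7_c4] at h
  have h1 := chk_leaf leaf (vl E x) hv H h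
  rw [← ev_swd x hE, ← ev_norm, norm_eq, ev_norm]
  exact h1

end Pool.Agent.Y872.Q440
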